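import Pool.Agent.Helper61.TQ.Core

set_option autoImplicit false

namespace Pool.Agent.Helper61.TQ

theorem ANS_tr_length (Q : W → Prop) (q : ℕ) : (tr Q q).length = q := by
  induction q with
  | zero => rfl
  | succ q ih => rw [tr, List.length_append, ih]; rfl

theorem ANS_tr_prefix (Q : W → Prop) (q d : ℕ) : tr Q q <+: tr Q (q + d) := by
  induction d with
  | zero => exact List.prefix_rfl
  | succ d ih => exact ih.trans (List.prefix_append _ _)

theorem st_ANS : ST_ANS := by
  classical
  intro n R
  set Q : W → Prop := fun a => ∃ y : W, y.length = n ∧ a ++ [true] <+: true :: y ∧ R y with hQ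
  have hlen : (ans n R).length = n + 1 := ANS_tr_length _ _
  have hpre : tr Q 1 <+: ans n R := by
    have := ANS_tr_prefix Q 1 n
    rw [Nat.add_comm 1 n] at this
    exact this
  have h1 : tr Q 1 = [decide (Q [])] := by
    show [] ++ [@decide (Q (tr Q 0)) _] = _
    rw [List.nil_append]
    congr 1
  have hQ0 : Q [] ↔ ∃ y : W, y.length = n ∧ R y := by
    simp only [hQ, List.nil_append]
    constructor
    · rintro ⟨y, h1, _, h2⟩; exact ⟨y, h1, h2⟩
    · rintro ⟨y, h1, h2⟩; exact ⟨y, h1, ⟨y, rfl⟩, h2⟩
  have hhead : (ans n R).headD false = decide (Q []) := by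
    obtain ⟨t, ht⟩ := hpre
    rw [← ht, h1]; rfl
  refine ⟨hlen, ?_, ?_⟩
  · rw [hhead, decide_eq_true_iff, hQ0]
  · intro h
    rw [hhead, decide_eq_true_iff] at h
    have key : ∀ i, 1 ≤ i → i ≤ n + 1 → ∃ y : W, y.length = n ∧ tr Q i <+: true :: y ∧ R y := by
      intro i hi
      induction i, hi using Nat.le_induction with
      | base =>
        intro _
        rw [h1, decide_eq_true h]
        obtain ⟨y, hy1, hy2, hy3⟩ := h
        exact ⟨y, hy1, ⟨y, rfl⟩, hy3⟩
      | succ i hi ih =>
        intro hi2
        obtain ⟨y, hy1, hy2, hy3⟩ := ih (by omega)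
        rw [tr]
        by_cases hq : Q (tr Q i)
        · rw [decide_eq_true hq]
          obtain ⟨z, hz1, hz2, hz3⟩ := hq
          exact ⟨z, hz1, hz2, hz3⟩
        · rw [decide_eq_false hq]
          refine ⟨y, hy1, ?_, hy3⟩
          obtain ⟨t, ht⟩ := hy2
          have hl := ANS_tr_length Q i
          cases t with
          | nil =>
            exfalso
            have : (tr Q i ++ []).length = (true :: y).length := by rw [ht]
            simp at this
            omega
          | cons b t =>
            cases b
            · exact ⟨t, by rw [List.append_assoc]; exact ht⟩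
            · exfalso
              apply hq
              exact ⟨y, hy1, ⟨t, by rw [List.append_assoc]; exact ht⟩, hy3⟩
    obtain ⟨y, hy1, hy2, hy3⟩ := key (n + 1) (by omega) le_rfl
    have : ans n R = true :: y := by
      refine List.IsPrefix.eq_of_length hy2 ?_
      rw [hlen]; simp [hy1]
    rw [this]
    exact hy3

end Pool.Agent.Helper61.TQ
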