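import Pool.Agent.Helper61.TQ.Core

set_option autoImplicit false

namespace Pool.Agent.Helper61.TQ

/-- binary search from a prefix -/
def BS_aux (g : W → Bool) (m : ℕ) (u : W) : W :=
  ((List.range m).reverse).foldl
    (fun u k => bif g (u ++ false :: one k) then u ++ [false] else u ++ [true]) u

theorem BS_aux_succ (g : W → Bool) (m : ℕ) (u : W) : BS_aux g (m + 1) u =
    BS_aux g m (bif g (u ++ false :: one m) then u ++ [false] else u ++ [true]) := by
  unfold BS_aux
  rw [List.range_succ, List.reverse_append]
  rfl

theorem BS_main (g : W → Bool) : ∀ (m : ℕ) (u : W), (BS_aux g m u).length = u.length + m ∧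
    u <+: BS_aux g m u ∧ (g (u ++ one m) = true → g (BS_aux g m u) = true) ∧
    ∀ (v : W) (k : ℕ), u.length ≤ v.length → BS_aux g m u = v ++ true :: zer k →
      g (v ++ false :: one k) = false := by
  intro m
  induction m with
  | zero =>
    intro u
    refine ⟨by simp [BS_aux], by simp [BS_aux], ?_, ?_⟩
    · intro h; simpa [BS_aux, one] using h
    · intro v k hv he
      exfalso
      have e : (BS_aux g 0 u).length = (v ++ true :: zer k).length := by rw [he]
      simp [BS_aux] at e
      omega
  | succ m ih =>
    intro u
    rw [BS_aux_succ]
    cases hg : g (u ++ false :: one m)
    · simp only [cond_false]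
      obtain ⟨h1, h2, h3, h4⟩ := ih (u ++ [true])
      refine ⟨by rw [h1]; simp; ring, (List.prefix_append u [true]).trans h2, ?_, ?_⟩
      · intro h
        apply h3
        have : u ++ [true] ++ one m = u ++ one (m + 1) := by
          simp [one, List.replicate_succ]
        rw [this]; exact h
      · intro v k hv he
        rcases Nat.lt_or_ge u.length v.length with hlt | hge
        · exact h4 v k (by simpa using hlt) he
        · have hvu : v.length = u.length := le_antisymm hge hv
          have hpre : u <+: v ++ true :: zer k := by
            rw [← he]; exact (List.prefix_append u [true]).trans h2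
          have huv : u = v := by
            have h5 := List.prefix_iff_eq_take.1 hpre
            rw [h5, ← hvu, List.take_left']
            rfl
          subst huv
          have hk : k = m := by
            have e : (BS_aux g m (u ++ [true])).length = (u ++ true :: zer k).length := by rw [he]
            rw [h1] at e
            simp [zer] at e
            omega
          rw [hk]; exact hg
    · simp only [cond_true]
      obtain ⟨h1, h2, h3, h4⟩ := ih (u ++ [false])
      refine ⟨by rw [h1]; simp; ring, (List.prefix_append u [false]).trans h2, ?_, ?_⟩
      · intro _
        apply h3
        have : u ++ [false] ++ one m = u ++ false :: one m := by simp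
        rw [this]; exact hg
      · intro v k hv he
        rcases Nat.lt_or_ge u.length v.length with hlt | hge
        · exact h4 v k (by simpa using hlt) he
        · exfalso
          have hvu : v.length = u.length := le_antisymm hge hv
          have hpre : u ++ [false] <+: v ++ true :: zer k := by rw [← he]; exact h2
          obtain ⟨t, ht⟩ := hpre
          rw [List.append_assoc] at ht
          have h5 := List.append_inj ht hvu.symm
          simp at h5

theorem st_BS : ST_BS := by
  intro g m
  have e : bs g m = BS_aux g m [] := rfl
  obtain ⟨h1, _, h3, h4⟩ := BS_main g m []
  rw [e]
  refine ⟨by simpa using h1, ?_, ?_⟩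
  · intro h; exact h3 (by simpa using h)
  · intro u k he; exact h4 u k (by simp) he

end Pool.Agent.Helper61.TQ
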