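import Pool.Agent.Helper61.TQ.Defs
import Pool.Agent.Helper52.Grid.PTLib
import Pool.Agent.Helper53.CL.Classes

set_option autoImplicit false

/-! Working definitions and the statements of the modules. -/

namespace Pool.Agent.Helper61.TQ

open Pool.Agent.Helper58 Pool.Agent.Helper53.CL Pool.Agent.Helper52.Grid

abbrev W := List Bool

/-- NP predicates on an encoded type (sound verifier, certificates of polynomial length) -/
def NPf {α : Type} [Enc α] (L : α → Prop) : Prop :=
  ∃ (V : α → W → Bool) (B : α → ℕ), PTf (fun x : α × W => V x.1 x.2) ∧ PTf B ∧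
    (∀ a w, V a w = true → L a) ∧ ∀ a, L a → ∃ w : W, w.length ≤ B a ∧ V a w = true

/-! ### words as numbers -/

/-- value of a word, most significant bit first -/
def val (u : W) : ℕ := u.foldl (fun n b => 2 * n + b.toNat) 0

/-- `val u ≤ val v`, for words of the same length -/
def leW (u v : W) : Bool :=
  !(decide ((u.zip v).foldl (fun (s : ℕ) (p : Bool × Bool) =>
    if s = 0 then (if p.1 = p.2 then 0 else (bif p.2 then 1 else 2)) else s) 0 = 2))

def one (n : ℕ) : W := List.replicate n true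
def zer (n : ℕ) : W := List.replicate n false

/-- binary search -/
def bs (g : W → Bool) (m : ℕ) : W :=
  ((List.range m).reverse).foldl
    (fun u k => bif g (u ++ false :: one k) then u ++ [false] else u ++ [true]) []

/-- The data provided by the two queries assumption: an NP-complete set `K` with verifier `V`
(certificates of `x` have length `m x`), the functions `b`, `χ` with
`[ρ] xor [ψ] = b ρ ψ xor [χ ρ ψ]`, and reductions to `K` of the two languages `cut`, `node`. -/
structure Sys where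
  K : Set W
  V : W → W → Bool
  m : W → ℕ
  b : W → W → Bool
  χ : W → W → W
  cut : W → W → W
  node : W → W → W
  hV : ∀ x z, V x z = true → z.length = m x ∧ x ∈ K
  hK : ∀ x ∈ K, ∃ z : W, V x z = true
  hχ : ∀ ρ ψ, (ρ ∈ K ↔ ψ ∈ K) ↔ (b ρ ψ = true ↔ χ ρ ψ ∈ K)
  hcut : ∀ ρ c, c.length = m ρ → (cut ρ c ∈ K ↔ ∃ z : W, val z ≤ val c ∧ V ρ z = true)
  hnode : ∀ X u, node X u ∈ K ↔ ∃ z : W, u <+: z ∧ V X z = true
  pV : PTf (fun x : W × W => V x.1 x.2)
  pm : PTf m
  pb : PTf (fun x : W × W => b x.1 x.2)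
  pχ : PTf (fun x : W × W => χ x.1 x.2)
  pcut : PTf (fun x : W × W => cut x.1 x.2)
  pnode : PTf (fun x : W × W => node x.1 x.2)
  hard : ∀ {α : Type} [Enc α] (L : α → Prop), NPf L → ∃ f : α → W, PTf f ∧ ∀ a, L a ↔ f a ∈ K

namespace Sys

variable (S : Sys)

def g (ρ ψ c : W) : Bool := S.b (S.cut ρ c) ψ

/-- the rank of `ψ` for `ρ`, a word of length `m ρ + 1` -/
def rk (ρ ψ : W) : W :=
  bif S.g ρ ψ (one (S.m ρ)) then false :: bs (S.g ρ ψ) (S.m ρ) else true :: one (S.m ρ)

/-- self-reduction guided by ranks -/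
def P (ρ X : W) : W :=
  (List.range (S.m X)).foldl
    (fun u _ => bif leW (S.rk ρ (S.node X (u ++ [false]))) (S.rk ρ (S.node X (u ++ [true])))
      then u ++ [false] else u ++ [true]) []

def solves (ρ X : W) : Bool := S.V X (S.P ρ X)

/-- clauses of the proof system -/
def CA (ρ ψ : W) : Prop :=
  ψ ∈ S.K ∧ S.g ρ ψ (one (S.m ρ)) = false ∧ S.χ (S.cut ρ (one (S.m ρ))) ψ ∈ S.K

def CB (ρ ψ : W) : Prop :=
  S.V ρ (zer (S.m ρ)) = false ∧ S.g ρ ψ (zer (S.m ρ)) = true ∧
  S.χ (S.cut ρ (zer (S.m ρ))) ψ ∈ S.K ∧ S.g ρ ψ (one (S.m ρ)) = true ∧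
  S.χ (S.cut ρ (one (S.m ρ))) ψ ∈ S.K

def CC (ρ ψ ψ' : W) : Prop :=
  ∃ u c' : W, u.length < S.m ρ ∧ c'.length = S.m ρ ∧
    leW c' (u ++ true :: zer (S.m ρ - u.length - 1)) = true ∧ ψ ∈ S.K ∧
    S.g ρ ψ (u ++ false :: one (S.m ρ - u.length - 1)) = false ∧
    S.χ (S.cut ρ (u ++ false :: one (S.m ρ - u.length - 1))) ψ ∈ S.K ∧
    S.V ρ (u ++ true :: zer (S.m ρ - u.length - 1)) = false ∧
    S.g ρ ψ' c' = true ∧ S.χ (S.cut ρ c') ψ' ∈ S.K ∧
    S.g ρ ψ' (one (S.m ρ)) = true ∧ S.χ (S.cut ρ (one (S.m ρ))) ψ' ∈ S.K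

/-- `ρ` has a short proof of unsatisfiability, of scope `n` -/
def PROOF (n : ℕ) (ρ : W) : Prop :=
  ∃ X u : W, X.length = n ∧ u.length < S.m X ∧ ∃ s : Bool,
    S.CA ρ (S.node X (u ++ [s])) ∨ S.CB ρ (S.node X (u ++ [s])) ∨
    S.CC ρ (S.node X (u ++ [s])) (S.node X (u ++ [!s]))

end Sys

/-- soundness of the proof system -/
def ST_SND : Prop := ∀ (S : Sys) (n : ℕ) (ρ : W), S.PROOF n ρ → ρ ∉ S.K

/-- the dichotomy -/
def ST_DICH : Prop := ∀ (S : Sys) (n : ℕ) (ρ : W), ρ ∉ S.K → ¬ S.PROOF n ρ →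
  ∀ X : W, X.length = n → X ∈ S.K → S.solves ρ X = true

/-- properties of binary search -/
def ST_BS : Prop := ∀ (g : W → Bool) (m : ℕ), (bs g m).length = m ∧
  (g (one m) = true → g (bs g m) = true) ∧
  ∀ (u : W) (k : ℕ), bs g m = u ++ true :: zer k → g (u ++ false :: one k) = false

/-- comparison of words -/
def ST_LEW : Prop := (∀ u v : W, u.length = v.length → (leW u v = true ↔ val u ≤ val v)) ∧
  (∀ u v : W, u.length = v.length → val u = val v → u = v) ∧
  (∀ u : W, val u < 2 ^ u.length) ∧ (∀ n, val (zer n) = 0) ∧ (∀ n, val (one n) + 1 = 2 ^ n) ∧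
  (∀ (u : W) (k : ℕ), val (u ++ true :: zer k) = val (u ++ false :: one k) + 1) ∧
  (∀ (u : W) (b : Bool), val (b :: u) = b.toNat * 2 ^ u.length + val u) ∧
  (∀ u : W, val u ≠ 0 → ∃ (v : W) (k : ℕ), u = v ++ true :: zer k)

/-- `leW`, ranks and the self-reduction are computable in polynomial time -/
def ST_PP : Prop := PTf (fun x : W × W => leW x.1 x.2) ∧
  ∀ S : Sys, PTf (fun x : W × W => S.solves x.1 x.2)

/-- closure properties of NP -/
def ST_NPC : Prop :=
  (∀ {α : Type} [Enc α] (p : α → Bool), PTf p → NPf (fun a => p a = true)) ∧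
  (∀ {α β : Type} [Enc α] [Enc β] (L : β → Prop) (f : α → β), NPf L → PTf f → NPf (fun a => L (f a))) ∧
  (∀ {α : Type} [Enc α] (L L' : α → Prop), NPf L → NPf L' → NPf (fun a => L a ∧ L' a)) ∧
  (∀ {α : Type} [Enc α] (L L' : α → Prop), NPf L → NPf L' → NPf (fun a => L a ∨ L' a)) ∧
  (∀ {α : Type} [Enc α] (L : α → W → Prop) (B : α → ℕ), NPf (fun x : α × W => L x.1 x.2) → PTf B →
    NPf (fun a => ∃ w : W, w.length ≤ B a ∧ L a w))

/-- closure of NP under bounded conjunction -/
def ST_NPALL : Prop :=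
  ∀ {α β : Type} [Enc α] [Enc β] (L : α → β → Prop) (l : α → List β),
    NPf (fun x : α × β => L x.1 x.2) → PTf l → NPf (fun a => ∀ x ∈ l a, L a x)

/-- the proof system is in NP -/
def ST_PRF : Prop := ∀ S : Sys, NPf (fun x : ℕ × W => S.PROOF x.1 x.2)

/-! ### programs with NP queries -/

open Classical in
/-- the transcript of the answers of a program whose next query, after the answers `a`, is `Q a` -/
noncomputable def tr (Q : W → Prop) : ℕ → W
  | 0 => []
  | q + 1 => tr Q q ++ [decide (Q (tr Q q))]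

/-- average over all words of length `n` -/
noncomputable def avg : ℕ → (W → ℝ) → ℝ
  | 0, f => f []
  | n + 1, f => (avg n (fun v => f (false :: v)) + avg n (fun v => f (true :: v))) / 2

/-- indicator -/
noncomputable def ind (p : Prop) : ℝ := by classical exact if p then 1 else 0

/-- the concept `ρ` solves all instances of length `n` -/
def Sys.Perfect (S : Sys) (n : ℕ) (ρ : W) : Prop :=
  ρ.length = n ∧ ∀ X : W, X.length = n → X ∈ S.K → S.solves ρ X = true

/-- a learning program: on `n` and the random word `r` of length `ℓ n` it makes `t n` adaptive NP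
queries (`Q n r a` is the query after the answers `a`); if the final state is `good` then `alg`
solves all instances of length `n`, and this happens with probability at least `2/3` if there is a
perfect concept. -/
structure Prg (S : Sys) where
  Q : ℕ → W → W → Prop
  t : ℕ → ℕ
  ℓ : ℕ → ℕ
  good : ℕ → W → W → Bool
  alg : ℕ → W → W → W → Bool
  pQ : NPf (fun x : ℕ × (W × W) => Q x.1 x.2.1 x.2.2)
  pt : PTf t
  pℓ : PTf ℓ
  pgood : PTf (fun x : ℕ × (W × W) => good x.1 x.2.1 x.2.2)
  palg : PTf (fun x : (ℕ × (W × W)) × W => alg x.1.1 x.1.2.1 x.1.2.2 x.2)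
  sound : ∀ n r a X, alg n r a X = true → X ∈ S.K
  complete : ∀ n r, r.length = ℓ n → good n r (tr (Q n r) (t n)) = true →
    ∀ X : W, X.length = n → X ∈ S.K → alg n r (tr (Q n r) (t n)) X = true
  learn : ∀ n, (∃ ρ, S.Perfect n ρ) →
    2 / 3 ≤ avg (ℓ n) (fun r => ind (good n r (tr (Q n r) (t n)) = true))

/-- the conclusion, in terms of polynomial time functions -/
def Concl (K : Set W) : Prop :=
  ∃ (A : W → Prop) (adv : ℕ → Bool) (R : W → W → Bool) (ℓ : ℕ → ℕ),
    NPf A ∧ PTf (fun x : W × W => R x.1 x.2) ∧ PTf ℓ ∧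
    (∀ x, A x → x ∉ K) ∧ (∀ x, x ∉ K → adv x.length = false → A x) ∧
    (∀ x r, R x r = true → x ∈ K) ∧
    (∀ x ∈ K, adv x.length = true → 2 / 3 ≤ avg (ℓ x.length) (fun r => ind (R x r = true)))

/-- main argument -/
def ST_T1 : Prop := ∀ S : Sys, Nonempty (Prg S) → Concl S.K

/-! ### programs with function calls -/

/-- the result of a call: a flag telling whether there is `y` of length `n` with `R y`, followed by
the largest such `y` -/
noncomputable def ans (n : ℕ) (R : W → Prop) : W :=
  tr (fun a => ∃ y : W, y.length = n ∧ a ++ [true] <+: true :: y ∧ R y) (n + 1)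

/-- the results of the first `c` calls of a program -/
noncomputable def res (n : ℕ) (R : List W → W → Prop) : ℕ → List W
  | 0 => []
  | c + 1 => res n R c ++ [ans n (R (res n R c))]

/-- a learning program with function calls -/
structure CPrg (S : Sys) where
  R : ℕ → W → List W → W → Prop
  t : ℕ → ℕ
  ℓ : ℕ → ℕ
  good : ℕ → List W → Bool
  alg : ℕ → List W → W → Bool
  pR : NPf (fun x : (ℕ × W) × (List W × W) => R x.1.1 x.1.2 x.2.1 x.2.2)
  pt : PTf t
  pℓ : PTf ℓ
  pgood : PTf (fun x : ℕ × List W => good x.1 x.2)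
  palg : PTf (fun x : (ℕ × List W) × W => alg x.1.1 x.1.2 x.2)
  sound : ∀ n a X, alg n a X = true → X ∈ S.K
  complete : ∀ n r, r.length = ℓ n → good n (res n (R n r) (t n)) = true →
    ∀ X : W, X.length = n → X ∈ S.K → alg n (res n (R n r) (t n)) X = true
  learn : ∀ n, (∃ ρ, S.Perfect n ρ) →
    2 / 3 ≤ avg (ℓ n) (fun r => ind (good n (res n (R n r) (t n)) = true))

def ST_ANS : Prop := ∀ (n : ℕ) (R : W → Prop), (ans n R).length = n + 1 ∧
  ((ans n R).headD false = true ↔ ∃ y : W, y.length = n ∧ R y) ∧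
  ((ans n R).headD false = true → R (ans n R).tail)

/-- from calls to queries -/
def ST_CALL : Prop := ∀ S : Sys, Nonempty (CPrg S) → Nonempty (Prg S)

/-! ### the learning program -/

/-- inner product modulo two -/
def ip (u v : W) : Bool :=
  (u.zip v).foldl (fun (s : Bool) (p : Bool × Bool) => Bool.xor s (p.1 && p.2)) false

/-- the affine form coded by `row` (constant term first) vanishes at `x` -/
def rowZ (row x : W) : Bool := !(Bool.xor (row.headD false) (ip row.tail x))

/-- length of the seed of a hash function -/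
def hs (n : ℕ) : ℕ := (n + 1) * (n + 1)

/-- `x` is hashed to zero by the first `k` rows of the seed `s` -/
def hz (n k : ℕ) (s x : W) : Bool :=
  (List.range k).all (fun i => rowZ ((s.drop (i * (n + 1))).take (n + 1)) x)

/-- number of hash functions of each level -/
def tt (n : ℕ) : ℕ := 16 * (2 * n + 4)

/-- the levels of the hash functions of a round -/
def levels (n : ℕ) : List ℕ := (List.range (n + 2)).flatMap (fun k => List.replicate (tt n) k)

/-- number of hash functions of a round -/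
def JJ (n : ℕ) : ℕ := (n + 2) * tt n

/-- all instances of the list are solved -/
def Sys.cons (S : Sys) (L : List W) (ρ : W) : Bool := L.all (fun X => S.solves ρ X)

/-- state of the learning program: counterexamples, candidates of this round, success, final list -/
abbrev St := (List W × List W) × (Bool × List W)

def st0 : St := (([], []), (false, []))

/-- processing the result of a call -/
def stepSt (J : ℕ) (s : St) (w : W) : St :=
  if s.1.2.length < J then ((s.1.1, s.1.2 ++ [w.tail]), s.2)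
  else (bif w.headD false then ((s.1.1 ++ [w.tail], []), s.2) else ((s.1.1, []), (true, s.1.2)))

def state (n : ℕ) (prev : List W) : St := prev.foldl (stepSt (JJ n)) st0

/-- seed number `s` of round `i` -/
def seed (n : ℕ) (r : W) (i s : ℕ) : W := (r.drop ((i * JJ n + s) * hs n)).take (hs n)

/-- relation of a call for a candidate -/
def Sys.RT (S : Sys) (n : ℕ) (L : List W) (k : ℕ) (s : W) (y : W) : Prop :=
  y.length = n ∧ S.cons L y = true ∧ hz n k s y = true

/-- relation of a call for a counterexample -/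
def Sys.RX (S : Sys) (n : ℕ) (T : List W) (y : W) : Prop :=
  y.length = n ∧ y ∈ S.K ∧ ∀ ρ ∈ T, S.solves ρ y = false

/-- relation of the calls of the learning program -/
def Sys.RL (S : Sys) (n : ℕ) (r : W) (prev : List W) (y : W) : Prop :=
  if (state n prev).1.2.length < JJ n then
    S.RT n (state n prev).1.1 ((levels n).getD (state n prev).1.2.length 0)
      (seed n r (state n prev).1.1.length (state n prev).1.2.length) y
  else S.RX n (state n prev).1.2 y

/-- candidates of a round with counterexamples `L` and random word `r` (of length `JJ n * hs n`) -/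
noncomputable def Sys.cands (S : Sys) (n : ℕ) (L : List W) (r : W) : List W :=
  (List.range (JJ n)).map (fun s =>
    (ans n (S.RT n L ((levels n).getD s 0) ((r.drop (s * hs n)).take (hs n)))).tail)

open Classical in
/-- `d` more rounds, starting from the counterexamples `L`, are all unsuccessful -/
noncomputable def Sys.fails (S : Sys) (n : ℕ) : ℕ → List W → W → Prop
  | 0, _, _ => True
  | d + 1, L, r =>
    (ans n (S.RX n (S.cands n L r))).headD false = true ∧
      Sys.fails S n d (L ++ [(ans n (S.RX n (S.cands n L r))).tail]) (r.drop (JJ n * hs n))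

/-- the program as a sequence of rounds -/
def ST_RND : Prop := ∀ (S : Sys) (n : ℕ) (r : W), r.length = (n + 1) * (JJ n * hs n) →
  (state n (res n (S.RL n r) ((n + 1) * (JJ n + 1)))).2.1 = false → S.fails n (n + 1) [] r

/-- zero error -/
def ST_ZERO : Prop := ∀ (S : Sys) (n : ℕ) (r : W) (c : ℕ),
  (state n (res n (S.RL n r) c)).2.1 = true → ∀ X : W, X.length = n → X ∈ S.K →
    ∃ ρ ∈ (state n (res n (S.RL n r) c)).2.2, S.solves ρ X = true

/-- the relation of the calls is in NP -/
def ST_RLP : Prop := ∀ S : Sys,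
  NPf (fun x : (ℕ × W) × (List W × W) => S.RL x.1.1 x.1.2 x.2.1 x.2.2)

/-! ### probability -/

/-- elementary properties of averages -/
def ST_AVG : Prop :=
  (∀ (n : ℕ) (f g : W → ℝ), (∀ w : W, w.length = n → f w ≤ g w) → avg n f ≤ avg n g) ∧
  (∀ (n : ℕ) (f g : W → ℝ), avg n (fun w => f w + g w) = avg n f + avg n g) ∧
  (∀ (n : ℕ) (c : ℝ) (f : W → ℝ), avg n (fun w => c * f w) = c * avg n f) ∧
  (∀ (n : ℕ) (c : ℝ), avg n (fun _ => c) = c) ∧
  (∀ (a b : ℕ) (f : W → ℝ), avg (a + b) f = avg a (fun u => avg b (fun v => f (u ++ v)))) ∧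
  (∀ (a b : ℕ) (f : W → ℝ), avg (a + b) (fun w => f (w.take a)) = avg a f) ∧
  (∀ (J h : ℕ) (f : ℕ → W → ℝ), avg (J * h) (fun r =>
    ((List.range J).map (fun s => f s ((r.drop (s * h)).take h))).prod) =
      ((List.range J).map (fun s => avg h (f s))).prod) ∧
  (∀ (n : ℕ) (p : W → Bool), avg n (fun r => ind (p r = true)) * 2 ^ n =
    Fintype.card {r : Fin n → Bool // p (List.ofFn r) = true})

/-- pairwise independence of the hash functions -/
def ST_HASH : Prop := ∀ n k : ℕ, k ≤ n + 1 →
  (∀ x : W, x.length = n → avg (hs n) (fun s => ind (hz n k s x = true)) = (1 / 2) ^ k) ∧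
  (∀ x y : W, x.length = n → y.length = n → x ≠ y →
    avg (hs n) (fun s => ind (hz n k s x = true ∧ hz n k s y = true)) = (1 / 4) ^ k)

/-- isolation -/
def ST_ISO : Prop := ∀ (n k : ℕ) (C D : Finset W), k ≤ n + 1 → (∀ x ∈ C, x.length = n) → D ⊆ C →
  2 * C.card ≤ 2 ^ k → 2 ^ k < 4 * C.card → C.card ≤ 2 * D.card →
  1 / 16 ≤ avg (hs n) (fun s => ind (∃ c ∈ D, hz n k s c = true ∧
    ∀ c' ∈ C, hz n k s c' = true → c' = c))

open Classical in
/-- the concepts of length `n` consistent with the list `L` -/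
noncomputable def Sys.CS (S : Sys) (n : ℕ) (L : List W) : Finset W :=
  ((Finset.univ : Finset (Fin n → Bool)).image List.ofFn).filter (fun ρ => S.cons L ρ = true)

/-- the round with random word `r` solves each instance that is solved by half of the concepts -/
def Sys.Good (S : Sys) (n : ℕ) (L : List W) (r : W) : Prop :=
  ∀ X : W, X.length = n → (S.CS n L).card ≤ 2 * (S.CS n (L ++ [X])).card →
    ∃ ρ ∈ S.cands n L r, S.solves ρ X = true

/-- a round is good with high probability -/
def ST_FRESH : Prop := ∀ (S : Sys) (n : ℕ) (L : List W), (S.CS n L).Nonempty →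
  avg (JJ n * hs n) (fun r => ind (¬ S.Good n L r)) ≤ 1 / 2 ^ (n + 4)

/-- the probability of failure -/
def ST_PROB : Prop := ∀ (S : Sys) (n : ℕ) (ρ : W), S.Perfect n ρ →
  avg ((n + 1) * (JJ n * hs n)) (fun r => ind (S.fails n (n + 1) [] r)) ≤ 1 / 3

/-- existence of the learning program -/
def ST_LEARN : Prop := ∀ S : Sys, Nonempty (CPrg S)

/-! ### SAT -/

def ST_SATNP : Prop := NPf (fun x : W => x ∈ SAT)

def ST_SATHARD : Prop := ∀ {α : Type} [Enc α] (L : α → Prop), NPf L →
  ∃ f : α → W, PTf f ∧ ∀ a, L a ↔ f a ∈ SAT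

/-! ### classes -/

/-- the classes in terms of `PTf` -/
def ST_CLS : Prop :=
  (∀ A : Set W, InNP A ↔ NPf (fun x => x ∈ A)) ∧
  (∀ q : W → W, PolyFun q ↔ PTf q) ∧
  (∀ V : W × W → Bool, Nonempty (Turing.TM2ComputableInPolyTime encPair Computability.encodeBool V) ↔
    PTf V) ∧
  (∀ ℓ : ℕ → ℕ, PTf ℓ → ∃ p : Polynomial ℕ, ∀ n, ℓ n ≤ p.eval n)

/-- consequence of the two queries assumption -/
def ST_XOR : Prop := TwoQueries → ∃ (b : W → W → Bool) (χ : W → W → W),
  PTf (fun x : W × W => b x.1 x.2) ∧ PTf (fun x : W × W => χ x.1 x.2) ∧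
  ∀ ρ ψ, (ρ ∈ SAT ↔ ψ ∈ SAT) ↔ (b ρ ψ = true ↔ χ ρ ψ ∈ SAT)

/-- the system for SAT -/
def ST_SYS : Prop := TwoQueries → ∃ S : Sys, S.K = SAT

/-- from the conclusion to the classes -/
def ST_OUT : Prop := Concl SAT →
  ∃ A B : Set W, InNP A ∧ InCoRP1 B ∧ InBPP1 B ∧ SATᶜ = A ∪ B

end Pool.Agent.Helper61.TQ
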