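import Mathlib
import Pool.Agent.Helper53.CL.PNP

set_option autoImplicit false

/-! The two queries problem: statement-level definitions. -/

namespace Pool.Agent.Helper61.TQ

open Pool.Agent.Helper53.CL

/-- Boolean formulas in the variables `var 0, var 1, ...` -/
inductive Fm : Type
  | var : ℕ → Fm
  | neg : Fm → Fm
  | and : Fm → Fm → Fm
  | or : Fm → Fm → Fm

/-- truth value of a formula under the assignment `v` -/
def Fm.eval (v : ℕ → Bool) : Fm → Bool
  | .var i => v i
  | .neg φ => !(φ.eval v)
  | .and φ ψ => φ.eval v && ψ.eval v
  | .or φ ψ => φ.eval v || ψ.eval v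

/-- The bit string coding a formula: postfix notation (reverse Polish notation) in an alphabet
whose letters are words of three bits; the index of a variable is written in binary. -/
def Fm.code : Fm → List Bool
  | .var i => i.bits.flatMap (fun b => [false, false, b]) ++ [false, true, false]
  | .neg φ => φ.code ++ [false, true, true]
  | .and φ ψ => φ.code ++ ψ.code ++ [true, false, false]
  | .or φ ψ => φ.code ++ ψ.code ++ [true, false, true]

/-- SAT: the bit strings coding a satisfiable formula. -/
def SAT : Set (List Bool) := {w | ∃ φ : Fm, φ.code = w ∧ ∃ v : ℕ → Bool, φ.eval v = true}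

/-- The function `q` on bit strings is computed by a Turing machine in polynomial time. -/
def PolyFun (q : List Bool → List Bool) : Prop :=
  Nonempty (Turing.TM2ComputableInPolyTime (fun u : List Bool => u) (fun u : List Bool => u) q)

open Classical in
/-- `L` is decided in deterministic polynomial time with `k` non-adaptive queries to SAT: on the
input `x` the queries are `q i x` for `i < k`, computed in polynomial time, and `D s` is the
polynomial time language of the inputs that are accepted when the vector of answers is `s`. For
`k = 1` this is `P^{SAT[1]}` (at most one query: the answer to a superfluous query can be ignored),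
for `k = 2` it is `P_∥^{SAT[2]}`. -/
def InPSat (k : ℕ) (L : Set (List Bool)) : Prop :=
  ∃ (q : Fin k → List Bool → List Bool) (D : (Fin k → Bool) → Set (List Bool)),
    (∀ i, PolyFun (q i)) ∧ (∀ s, InP (D s)) ∧
    ∀ x, x ∈ L ↔ x ∈ D (fun i => decide (q i x ∈ SAT))

/-- The two queries assumption `P^{SAT[1]} = P_∥^{SAT[2]}`. -/
def TwoQueries : Prop := {L | InPSat 1 L} = {L | InPSat 2 L}

open Classical in
/-- `L` is in BPP/1: there are a polynomial-time machine `M`, a polynomial `p` and a sequence `a` of
advice bits such that for each input `x` and for at least two thirds of all strings `r` of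
`p |x|` random bits, `M` on the input `a_{|x|} x` and the random bits `r` answers correctly whether
`x ∈ L`. -/
def InBPP1 (L : Set (List Bool)) : Prop :=
  ∃ (M : List Bool × List Bool → Bool) (p : Polynomial ℕ) (a : ℕ → Bool),
    Nonempty (Turing.TM2ComputableInPolyTime encPair Computability.encodeBool M) ∧
    ∀ x : List Bool, 2 * 2 ^ p.eval x.length ≤ 3 * Fintype.card
      {r : Fin (p.eval x.length) → Bool // M (a x.length :: x, List.ofFn r) = decide (x ∈ L)}

open Classical in
/-- `L` is in coRP/1: as BPP/1, but the machine never errs on inputs in `L`. -/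
def InCoRP1 (L : Set (List Bool)) : Prop :=
  ∃ (M : List Bool × List Bool → Bool) (p : Polynomial ℕ) (a : ℕ → Bool),
    Nonempty (Turing.TM2ComputableInPolyTime encPair Computability.encodeBool M) ∧
    (∀ x ∈ L, ∀ r : Fin (p.eval x.length) → Bool, M (a x.length :: x, List.ofFn r) = true) ∧
    ∀ x, x ∉ L → 2 * 2 ^ p.eval x.length ≤ 3 * Fintype.card
      {r : Fin (p.eval x.length) → Bool // M (a x.length :: x, List.ofFn r) = false}

/-- The positive answer to Q1. -/
def Main : Prop :=
  TwoQueries → ∃ A B : Set (List Bool), InNP A ∧ InCoRP1 B ∧ InBPP1 B ∧ SATᶜ = A ∪ B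

end Pool.Agent.Helper61.TQ
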