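import Pool.Agent.Helper61.TQ.Core
import Pool.Agent.Helper53.TQ.SYS
import Pool.Agent.Helper89.TQ.OUT

set_option autoImplicit false

/-! The answer for all NP-complete sets. -/

namespace Pool.Agent.Helper61.TQ

open Pool.Agent.Helper58 Pool.Agent.Helper53.CL Pool.Agent.Helper52.Grid

/-- `K` is NP-complete under polynomial-time many-one reductions. -/
def NPComplete (K : Set (List Bool)) : Prop :=
  InNP K ∧ ∀ L : Set (List Bool), InNP L →
    ∃ f : List Bool → List Bool, PolyFun f ∧ ∀ x, x ∈ L ↔ f x ∈ K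

/-- The complement of `K` is the union of a set `A` in NP and a set `B` in BPP/1 (even in
coRP/1). -/
def Answer (K : Set (List Bool)) : Prop :=
  ∃ A B : Set (List Bool), InNP A ∧ InCoRP1 B ∧ InBPP1 B ∧ Kᶜ = A ∪ B

/-- the classes, for every set (adapted from helper89's module OUT) -/
theorem gen_OUT (hCLS : ST_CLS) (hAVG : ST_AVG) (K : Set W) (hC : Concl K) : Answer K := by
  classical
  obtain ⟨A, adv, R, ℓ, hA, hR, hℓ, h1, h2, h3, h4⟩ := hC
  obtain ⟨p, hp⟩ := hCLS.2.2.2 ℓ hℓ
  let M : W × W → Bool := fun y =>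
    lcase y.1 false (fun a x => a && !(R x (y.2.take (ℓ x.length))))
  have hM : PTf M := by
    have h5 : PTf (fun z : (W × W) × (Bool × W) => ℓ z.2.2.length) :=
      PTf.comp hℓ (by fun_prop)
    have h5' : PTf (fun z : (W × W) × (Bool × W) => z.1.2.take (ℓ z.2.2.length)) :=
      OUT_take (by fun_prop) h5
    have h6 : PTf (fun z : (W × W) × (Bool × W) => R z.2.2 (z.1.2.take (ℓ z.2.2.length))) :=
      PTf.comp (g := fun x : W × W => R x.1 x.2)
        (f := fun z : (W × W) × (Bool × W) => (z.2.2, z.1.2.take (ℓ z.2.2.length))) hR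
        (PTf.pair (by fun_prop) h5')
    have h7 : PTf (fun z : (W × W) × (Bool × W) =>
        z.2.1 && !(R z.2.2 (z.1.2.take (ℓ z.2.2.length)))) := by
      fun_prop
    exact PTf.lcase (l := fun y : W × W => y.1) (f := fun _ => false)
      (g := fun y a x => a && !(R x (y.2.take (ℓ x.length)))) (by fun_prop) (by fun_prop) h7
  have hM' := (hCLS.2.2.1 M).2 hM
  have key : ∀ x : W, ¬ (adv x.length = true ∧ x ∉ K) →
      2 * 2 ^ p.eval x.length ≤ 3 * Fintype.card
      {r : Fin (p.eval x.length) → Bool // M (adv x.length :: x, List.ofFn r) = false} := by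
    intro x hx
    by_cases ha : adv x.length = true
    · have hS : x ∈ K := by
        by_contra hS
        exact hx ⟨ha, hS⟩
      have h5 := hAVG.2.2.2.2.2.2.2 (p.eval x.length)
        (fun w => R x (w.take (ℓ x.length)))
      have hle := hp x.length
      have h6 := hAVG.2.2.2.2.2.1 (ℓ x.length) (p.eval x.length - ℓ x.length)
        (fun w => ind (R x w = true))
      have e : ℓ x.length + (p.eval x.length - ℓ x.length) = p.eval x.length := by omega
      rw [e] at h6
      rw [h6] at h5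
      have h7 := h4 x hS ha
      have h8 : Fintype.card
          {r : Fin (p.eval x.length) → Bool // M (adv x.length :: x, List.ofFn r) = false} =
          Fintype.card {r : Fin (p.eval x.length) → Bool //
            R x ((List.ofFn r).take (ℓ x.length)) = true} := by
        refine Fintype.card_congr (Equiv.subtypeEquivRight fun r => ?_)
        show (adv x.length && !(R x ((List.ofFn r).take (ℓ x.length)))) = false ↔ _
        rw [ha]
        simp
      rw [h8]
      have h9 : (0 : ℝ) < 2 ^ p.eval x.length := by positivity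
      have h10 : (2 : ℝ) * 2 ^ p.eval x.length ≤ 3 * Fintype.card {r : Fin (p.eval x.length) → Bool //
            R x ((List.ofFn r).take (ℓ x.length)) = true} := by
        rw [← h5]
        nlinarith
      exact_mod_cast h10
    · refine OUT_card_all _ _ fun r => ?_
      show (adv x.length && !(R x ((List.ofFn r).take (ℓ x.length)))) = false
      have : adv x.length = false := by simpa using ha
      rw [this]
      simp
  have key2 : ∀ x : W, (adv x.length = true ∧ x ∉ K) → ∀ r : W,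
      M (adv x.length :: x, r) = true := by
    rintro x ⟨ha, hx⟩ r
    show (adv x.length && !(R x (r.take (ℓ x.length)))) = true
    rw [ha]
    have : R x (r.take (ℓ x.length)) = false := by
      by_contra h
      exact hx (h3 x _ (by simpa using h))
    simp [this]
  obtain ⟨B, hB⟩ : ∃ B : Set W, ∀ x, x ∈ B ↔ (adv x.length = true ∧ x ∉ K) :=
    ⟨{x | adv x.length = true ∧ x ∉ K}, fun x => Iff.rfl⟩
  refine ⟨{x | A x}, B, (hCLS.1 _).2 hA,
    ⟨M, p, adv, hM', fun x hx r => key2 x ((hB x).1 hx) _,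
      fun x hx => key x (fun h => hx ((hB x).2 h))⟩,
    ⟨M, p, adv, hM', ?_⟩, ?_⟩
  · intro x
    by_cases hx : x ∈ B
    · refine OUT_card_all _ _ fun r => ?_
      rw [decide_eq_true hx]
      exact key2 x ((hB x).1 hx) _
    · have := key x (fun h => hx ((hB x).2 h))
      rw [decide_eq_false hx]
      exact this
  · ext x
    constructor
    · intro hx
      by_cases ha : adv x.length = true
      · exact Or.inr ((hB x).2 ⟨ha, hx⟩)
      · exact Or.inl (h2 x hx (by simpa using ha))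
    · rintro (hx | hx)
      · exact h1 x hx
      · exact ((hB x).1 hx).2

/-- the system for an NP-complete set (adapted from helper53's module SYS) -/
theorem gen_SYS (K : Set W) (hKNP : NPf (fun x : W => x ∈ K))
    (hKHARD : ∀ {α : Type} [Enc α] (L : α → Prop), NPf L → ∃ f : α → W, PTf f ∧ ∀ a, L a ↔ f a ∈ K)
    (b : W → W → Bool) (χ : W → W → W)
    (pb : PTf (fun x : W × W => b x.1 x.2)) (pχ : PTf (fun x : W × W => χ x.1 x.2))
    (hbχ : ∀ ρ ψ, (ρ ∈ K ↔ ψ ∈ K) ↔ (b ρ ψ = true ↔ χ ρ ψ ∈ K)) (hLEW : ST_LEW)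
    (hPP : ST_PP) : ∃ S : Sys, S.K = K := by
  obtain ⟨V0, B0, pV0, pB0, hs0, hc0⟩ := hKNP
  obtain ⟨hle, -⟩ := hLEW
  obtain ⟨ple, -⟩ := hPP
  have pm : PTf (fun x : W => 2 * B0 x) := by fun_prop
  let V : W → W → Bool := fun x z => decide (z.length = 2 * B0 x) && V0 x (dc z)
  have pV : PTf (fun x : W × W => V x.1 x.2) := by
    have h1 : PTf (fun x : W × W => V0 x.1 (dc x.2)) := by
      have h2 : PTf (fun x : W × W => dc x.2) := ptf_dc (PTf.snd PTf.id)
      exact PTf.comp (g := fun x : W × W => V0 x.1 x.2) pV0 (PTf.pair (PTf.fst PTf.id) h2)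
    have h3 : PTf (fun x : W × W => B0 x.1) := PTf.comp pB0 (PTf.fst PTf.id)
    have h4 : PTf (fun x : W × W => decide (x.2.length = 2 * B0 x.1)) := by fun_prop
    exact PTf.and h4 h1
  have hV : ∀ x z, V x z = true → z.length = 2 * B0 x ∧ x ∈ K := by
    intro x z h
    have h' : decide (z.length = 2 * B0 x) = true ∧ V0 x (dc z) = true :=
      (Bool.and_eq_true_iff (x := decide (z.length = 2 * B0 x)) (y := V0 x (dc z))).1 h
    exact ⟨of_decide_eq_true h'.1, hs0 _ _ h'.2⟩
  have hK : ∀ x ∈ K, ∃ z : W, V x z = true := by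
    intro x hx
    obtain ⟨w, hw, hv⟩ := hc0 x hx
    refine ⟨ec (B0 x) w, ?_⟩
    show (decide ((ec (B0 x) w).length = 2 * B0 x) && V0 x (dc (ec (B0 x) w))) = true
    rw [ec_length hw, dc_ec, hv]
    simp
  -- the language `cut`
  have hNcut : NPf (fun x : W × W => ∃ z : W, leW z x.2 = true ∧ V x.1 z = true) := by
    refine ⟨fun x z => leW z x.2 && V x.1 z, fun x => 2 * B0 x.1, ?_, ?_, ?_, ?_⟩
    · have h1 : PTf (fun x : (W × W) × W => leW x.2 x.1.2) :=
        PTf.comp (g := fun x : W × W => leW x.1 x.2) ple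
          (PTf.pair (PTf.snd PTf.id) (PTf.snd (PTf.fst PTf.id)))
      have h2 : PTf (fun x : (W × W) × W => V x.1.1 x.2) :=
        PTf.comp (g := fun x : W × W => V x.1 x.2) pV
          (PTf.pair (PTf.fst (PTf.fst PTf.id)) (PTf.snd PTf.id))
      fun_prop
    · exact PTf.comp (g := fun x : W => 2 * B0 x) pm (PTf.fst PTf.id)
    · intro a w h
      have h' : leW w a.2 = true ∧ V a.1 w = true := by
        simpa only [Bool.and_eq_true] using h
      exact ⟨w, h'⟩
    · rintro a ⟨z, hz, hv⟩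
      refine ⟨z, ?_, ?_⟩
      · show z.length ≤ 2 * B0 a.1
        exact (hV _ _ hv).1.le
      · show (leW z a.2 && V a.1 z) = true
        rw [hz, hv]; rfl
  obtain ⟨fc, pfc, hfc⟩ := hKHARD _ hNcut
  -- the language `node`
  have hNnode : NPf (fun x : W × W => ∃ z : W, x.2 <+: z ∧ V x.1 z = true) := by
    refine ⟨fun x z => decide (x.2 ++ z.drop x.2.length = z) && V x.1 z, fun x => 2 * B0 x.1,
      ?_, ?_, ?_, ?_⟩
    · have h1 : PTf (fun x : (W × W) × W => decide (x.1.2 ++ x.2.drop x.1.2.length = x.2)) := by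
        fun_prop
      have h2 : PTf (fun x : (W × W) × W => V x.1.1 x.2) :=
        PTf.comp (g := fun x : W × W => V x.1 x.2) pV
          (PTf.pair (PTf.fst (PTf.fst PTf.id)) (PTf.snd PTf.id))
      exact PTf.and h1 h2
    · exact PTf.comp (g := fun x : W => 2 * B0 x) pm (PTf.fst PTf.id)
    · intro a w h
      have h' : decide (a.2 ++ w.drop a.2.length = w) = true ∧ V a.1 w = true := by
        simpa only [Bool.and_eq_true] using h
      exact ⟨w, (sys_prefix _ _).2 (of_decide_eq_true h'.1), h'.2⟩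
    · rintro a ⟨z, hz, hv⟩
      refine ⟨z, ?_, ?_⟩
      · show z.length ≤ 2 * B0 a.1
        exact (hV _ _ hv).1.le
      · show (decide (a.2 ++ z.drop a.2.length = z) && V a.1 z) = true
        rw [hv, decide_eq_true ((sys_prefix _ _).1 hz)]; rfl
  obtain ⟨fn, pfn, hfn⟩ := hKHARD _ hNnode
  refine ⟨{ K := K, V := V, m := fun x => 2 * B0 x, b := b, χ := χ,
            cut := fun ρ c => fc (ρ, c), node := fun X u => fn (X, u),
            hV := hV, hK := hK, hχ := hbχ, hcut := ?_, hnode := ?_,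
            pV := pV, pm := pm, pb := pb, pχ := pχ, pcut := pfc, pnode := pfn,
            hard := fun {α} [Enc α] L hL => hKHARD L hL }, rfl⟩
  · intro ρ c hc
    have h := hfc (ρ, c)
    refine h.symm.trans ?_
    constructor
    · rintro ⟨z, hz, hv⟩
      exact ⟨z, (hle z c ((hV _ _ hv).1.trans hc.symm)).1 hz, hv⟩
    · rintro ⟨z, hz, hv⟩
      exact ⟨z, (hle z c ((hV _ _ hv).1.trans hc.symm)).2 hz, hv⟩
  · intro X u
    exact (hfn (X, u)).symm


theorem gen_complete (hCLS : ST_CLS) (hSATNP : ST_SATNP) (hSATHARD : ST_SATHARD) :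
    NPComplete SAT := by
  refine ⟨(hCLS.1 SAT).2 hSATNP, fun L hL => ?_⟩
  obtain ⟨f, pf, hf⟩ := hSATHARD (fun x : W => x ∈ L) ((hCLS.1 L).1 hL)
  exact ⟨f, (hCLS.2.1 f).2 pf, hf⟩

theorem gen_main (hCLS : ST_CLS) (hAVG : ST_AVG) (hSATNP : ST_SATNP) (hSATHARD : ST_SATHARD)
    (hXOR : ST_XOR) (hLEW : ST_LEW) (hPP : ST_PP) (hT1 : ST_T1) (hCALL : ST_CALL)
    (hLEARN : ST_LEARN) (hTQ : TwoQueries) (K : Set W) (hK : NPComplete K) : Answer K := by
  obtain ⟨hK1, hK2⟩ := hK
  have hKNP : NPf (fun x : W => x ∈ K) := (hCLS.1 K).1 hK1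
  obtain ⟨f, pf, hf⟩ := hK2 SAT ((hCLS.1 SAT).2 hSATNP)
  have pf' : PTf f := (hCLS.2.1 f).1 pf
  obtain ⟨h, ph, hh⟩ := hSATHARD (fun x : W => x ∈ K) hKNP
  have hHARD : ∀ {α : Type} [Enc α] (L : α → Prop), NPf L →
      ∃ f : α → W, PTf f ∧ ∀ a, L a ↔ f a ∈ K := by
    intro α _ L hL
    obtain ⟨g, pg, hg⟩ := hSATHARD L hL
    exact ⟨fun a => f (g a), PTf.comp pf' pg, fun a => (hg a).trans (hf (g a))⟩
  obtain ⟨b, χ, pb, pχ, hbχ⟩ := hXOR hTQ
  have e : PTf (fun x : W × W => (h x.1, h x.2)) :=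
    PTf.pair (PTf.comp ph (PTf.fst PTf.id)) (PTf.comp ph (PTf.snd PTf.id))
  have pb' : PTf (fun x : W × W => b (h x.1) (h x.2)) :=
    PTf.comp (g := fun x : W × W => b x.1 x.2) pb e
  have pχ' : PTf (fun x : W × W => f (χ (h x.1) (h x.2))) :=
    PTf.comp pf' (PTf.comp (g := fun x : W × W => χ x.1 x.2) pχ e)
  obtain ⟨S, hS⟩ := gen_SYS K hKNP hHARD (fun ρ ψ => b (h ρ) (h ψ)) (fun ρ ψ => f (χ (h ρ) (h ψ)))
    pb' pχ' (fun ρ ψ => by rw [hh ρ, hh ψ, ← hf]; exact hbχ (h ρ) (h ψ)) hLEW hPP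
  have h1 := hT1 S (hCALL S (hLEARN S))
  rw [hS] at h1
  exact gen_OUT hCLS hAVG K h1

end Pool.Agent.Helper61.TQ
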