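import Pool.Agent.Helper61.TQ.Core

set_option autoImplicit false

namespace Pool.Agent.Helper61.TQ

open Pool.Agent.Helper58 Pool.Agent.Helper53.CL Pool.Agent.Helper52.Grid

/-- two words in one word -/
def NPC_jn (w w' : W) : W := w.flatMap (fun b => [true, b]) ++ false :: w'

/-- state of the parser: mode, first word, second word -/
def NPC_step (s : ℕ × (W × W)) (b : Bool) : ℕ × (W × W) :=
  if s.1 = 0 then (bif b then (1, s.2) else (2, s.2))
  else if s.1 = 1 then (0, (s.2.1 ++ [b], s.2.2)) else (2, (s.2.1, s.2.2 ++ [b]))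

def NPC_un (v : W) : ℕ × (W × W) := v.foldl NPC_step (0, ([], []))

theorem NPC_aux1 (w : W) : ∀ u u' : W,
    (w.flatMap (fun b => [true, b])).foldl NPC_step (0, (u, u')) = (0, (u ++ w, u')) := by
  induction w with
  | nil => intro u u'; simp
  | cons b w ih =>
    intro u u'
    rw [List.flatMap_cons, List.foldl_append]
    have : [true, b].foldl NPC_step (0, (u, u')) = (0, (u ++ [b], u')) := rfl
    rw [this, ih]; simp

theorem NPC_aux2 (w : W) : ∀ u u' : W,
    w.foldl NPC_step (2, (u, u')) = (2, (u, u' ++ w)) := by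
  induction w with
  | nil => intro u u'; simp
  | cons b w ih =>
    intro u u'
    rw [List.foldl_cons]
    have : NPC_step (2, (u, u')) b = (2, (u, u' ++ [b])) := rfl
    rw [this, ih]; simp

theorem NPC_un_jn (w w' : W) : NPC_un (NPC_jn w w') = (2, (w, w')) := by
  unfold NPC_un NPC_jn
  rw [List.foldl_append, NPC_aux1, List.foldl_cons]
  have : NPC_step (0, ([] ++ w, [])) false = (2, (w, [])) := rfl
  rw [this, NPC_aux2]; simp

theorem NPC_jn_length (w w' : W) : (NPC_jn w w').length = 2 * w.length + w'.length + 1 := by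
  have : (w.flatMap (fun b => [true, b])).length = 2 * w.length := by
    induction w with
    | nil => rfl
    | cons b w ih => rw [List.flatMap_cons, List.length_append, ih]; simp; ring
  unfold NPC_jn
  rw [List.length_append, this, List.length_cons]; ring

section
variable {γ : Type} [Enc γ]

theorem NPC_ptf_un {v : γ → W} (hv : PTf v) : PTf (fun x => NPC_un (v x)) := by
  unfold NPC_un
  refine ptf_foldl_add (γ := γ) (l := v) (init := fun _ => (0, (([] : W), ([] : W))))
    (step := fun _ s a => NPC_step s a) (K := fun _ => 10) hv (PTf.const _) ?_ (PB.const _) ?_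
  · unfold NPC_step; fun_prop
  · rintro x ⟨n, u, u'⟩ a _
    have h3 : ∀ (v : W) (c : Bool), sz (v ++ [c]) ≤ sz v + 4 := by
      intro v c
      have h4 := sz_append v [c]
      rw [sz_lcons, sz_lnil] at h4
      have := sz_bool c
      omega
    unfold NPC_step
    simp only
    split_ifs with h1 h2
    · cases a <;> simp only [cond_true, cond_false, sz_pair, sz_nat] <;> omega
    · simp only [sz_pair, sz_nat]; have := h3 u a; omega
    · simp only [sz_pair, sz_nat]; have := h3 u' a; omega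

theorem NPC_ptf_un1 {v : γ → W} (hv : PTf v) : PTf (fun x => (NPC_un (v x)).2.1) :=
  PTf.fst (PTf.snd (NPC_ptf_un hv))

theorem NPC_ptf_un2 {v : γ → W} (hv : PTf v) : PTf (fun x => (NPC_un (v x)).2.2) :=
  PTf.snd (PTf.snd (NPC_ptf_un hv))

end

theorem NPC_dec {α : Type} [Enc α] (p : α → Bool) (hp : PTf p) : NPf (fun a => p a = true) :=
  ⟨fun a _ => p a, fun _ => 0, by fun_prop, by fun_prop, fun a w h => h, fun a h => ⟨[], by simp, h⟩⟩

theorem NPC_comp {α β : Type} [Enc α] [Enc β] (L : β → Prop) (f : α → β) (hL : NPf L) (hf : PTf f) :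
    NPf (fun a => L (f a)) := by
  obtain ⟨V, B, hV, hB, h1, h2⟩ := hL
  refine ⟨fun a w => V (f a) w, fun a => B (f a), ?_, PTf.comp hB hf, fun a w h => h1 _ _ h,
    fun a h => h2 _ h⟩
  exact PTf.comp (g := fun x : β × W => V x.1 x.2) hV (f := fun x : α × W => (f x.1, x.2))
    (by fun_prop)

theorem NPC_and {α : Type} [Enc α] (L L' : α → Prop) (hL : NPf L) (hL' : NPf L') :
    NPf (fun a => L a ∧ L' a) := by
  obtain ⟨V, B, hV, hB, h1, h2⟩ := hL
  obtain ⟨V', B', hV', hB', h1', h2'⟩ := hL'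
  refine ⟨fun a v => V a (NPC_un v).2.1 && V' a (NPC_un v).2.2, fun a => 2 * B a + B' a + 1,
    ?_, by fun_prop, ?_, ?_⟩
  · have e1 : PTf (fun x : α × W => (x.1, (NPC_un x.2).2.1)) :=
      PTf.pair (by fun_prop) (NPC_ptf_un1 (by fun_prop))
    have e2 : PTf (fun x : α × W => (x.1, (NPC_un x.2).2.2)) :=
      PTf.pair (by fun_prop) (NPC_ptf_un2 (by fun_prop))
    exact PTf.and (PTf.comp (g := fun x : α × W => V x.1 x.2) hV e1)
      (PTf.comp (g := fun x : α × W => V' x.1 x.2) hV' e2)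
  · intro a w h
    rw [Bool.and_eq_true] at h
    exact ⟨h1 _ _ h.1, h1' _ _ h.2⟩
  · rintro a ⟨h, h'⟩
    obtain ⟨w, hw, hv⟩ := h2 a h
    obtain ⟨w', hw', hv'⟩ := h2' a h'
    refine ⟨NPC_jn w w', by rw [NPC_jn_length]; beta_reduce; omega, ?_⟩
    beta_reduce
    rw [NPC_un_jn]; simp [hv, hv']

theorem NPC_or {α : Type} [Enc α] (L L' : α → Prop) (hL : NPf L) (hL' : NPf L') :
    NPf (fun a => L a ∨ L' a) := by
  obtain ⟨V, B, hV, hB, h1, h2⟩ := hL
  obtain ⟨V', B', hV', hB', h1', h2'⟩ := hL'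
  refine ⟨fun a v => bif hd v false then V a v.tail else V' a v.tail, fun a => B a + B' a + 1,
    ?_, by fun_prop, ?_, ?_⟩
  · have e1 : PTf (fun x : α × W => (x.1, x.2.tail)) := by fun_prop
    exact PTf.cond (by fun_prop) (PTf.comp (g := fun x : α × W => V x.1 x.2) hV e1)
      (PTf.comp (g := fun x : α × W => V' x.1 x.2) hV' e1)
  · intro a w h
    beta_reduce at h
    cases hh : hd w false
    · rw [hh] at h; exact Or.inr (h1' _ _ h)
    · rw [hh] at h; exact Or.inl (h1 _ _ h)
  · rintro a (h | h)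
    · obtain ⟨w, hw, hv⟩ := h2 a h
      exact ⟨true :: w, by rw [List.length_cons]; beta_reduce; omega, by simpa [hd, lcase] using hv⟩
    · obtain ⟨w, hw, hv⟩ := h2' a h
      exact ⟨false :: w, by rw [List.length_cons]; beta_reduce; omega, by simpa [hd, lcase] using hv⟩

theorem NPC_ex {α : Type} [Enc α] (L : α → W → Prop) (B : α → ℕ)
    (hL : NPf (fun x : α × W => L x.1 x.2)) (hB : PTf B) :
    NPf (fun a => ∃ w : W, w.length ≤ B a ∧ L a w) := by
  obtain ⟨V, B', hV, hB', h1, h2⟩ := hL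
  obtain ⟨k, hk⟩ := hB'.sz_le
  refine ⟨fun a v => decide ((NPC_un v).2.1.length ≤ B a) && V (a, (NPC_un v).2.1) (NPC_un v).2.2,
    fun a => 2 * B a + (sz a + 4 * B a + 3) ^ k + 1, ?_, ?_, ?_, ?_⟩
  · have e1 : PTf (fun x : α × W => (NPC_un x.2).2.1) := NPC_ptf_un1 (by fun_prop)
    have e2 : PTf (fun x : α × W => (NPC_un x.2).2.2) := NPC_ptf_un2 (by fun_prop)
    have e3 : PTf (fun x : α × W => ((x.1, (NPC_un x.2).2.1), (NPC_un x.2).2.2)) := by fun_prop
    exact PTf.and (by fun_prop)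
      (PTf.comp (g := fun x : (α × W) × W => V x.1 x.2) hV e3)
  · have e1 : PTf (fun a : α => sz a) := ptf_sz PTf.id
    have e2 : PTf (fun a : α => (sz a + 4 * B a + 3) ^ k) := ptf_pow (by fun_prop) k
    fun_prop
  · intro a w h
    rw [Bool.and_eq_true, decide_eq_true_iff] at h
    exact ⟨_, h.1, h1 _ _ h.2⟩
  · rintro a ⟨w, hw, hL⟩
    obtain ⟨w', hw', hv⟩ := h2 (a, w) hL
    refine ⟨NPC_jn w w', ?_, ?_⟩
    · rw [NPC_jn_length]
      have e1 := hk (a, w)
      beta_reduce at e1 ⊢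
      rw [sz_nat, sz_pair] at e1
      have e2 := sz_bits_le w
      have e3 : (sz a + sz w + 1 + 1) ^ k ≤ (sz a + 4 * B a + 3) ^ k :=
        Nat.pow_le_pow_left (by omega) k
      omega
    · beta_reduce; rw [NPC_un_jn]; simp [hv, hw]

theorem st_NPC : ST_NPC :=
  ⟨fun p hp => NPC_dec p hp, fun L f hL hf => NPC_comp L f hL hf, fun L L' h h' => NPC_and L L' h h',
    fun L L' h h' => NPC_or L L' h h', fun L B hL hB => NPC_ex L B hL hB⟩

end Pool.Agent.Helper61.TQ
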