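import Pool.Agent.Helper61.TQ.Core

set_option autoImplicit false

namespace Pool.Agent.Helper61.TQ

open Pool.Agent.Helper58 Pool.Agent.Helper53.CL Pool.Agent.Helper52.Grid

theorem PRF_iff {α : Type} [Enc α] {L L' : α → Prop} (h : ∀ a, L a ↔ L' a) (hL : NPf L) : NPf L' := by
  have : L = L' := funext fun a => propext (h a)
  rw [← this]; exact hL

section

variable {γ : Type} [Enc γ]

@[fun_prop] theorem PRF_one {n : γ → ℕ} (hn : PTf n) : PTf (fun x => one (n x)) := by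
  unfold one; fun_prop
@[fun_prop] theorem PRF_zer {n : γ → ℕ} (hn : PTf n) : PTf (fun x => zer (n x)) := by
  unfold zer; fun_prop

theorem PRF_V (S : Sys) {x z : γ → W} (hx : PTf x) (hz : PTf z) : PTf (fun a => S.V (x a) (z a)) :=
  PTf.comp (g := fun x : W × W => S.V x.1 x.2) S.pV (PTf.pair hx hz)
theorem PRF_m (S : Sys) {x : γ → W} (hx : PTf x) : PTf (fun a => S.m (x a)) :=
  PTf.comp S.pm hx
theorem PRF_cut (S : Sys) {x z : γ → W} (hx : PTf x) (hz : PTf z) : PTf (fun a => S.cut (x a) (z a)) :=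
  PTf.comp (g := fun x : W × W => S.cut x.1 x.2) S.pcut (PTf.pair hx hz)
theorem PRF_node (S : Sys) {x z : γ → W} (hx : PTf x) (hz : PTf z) : PTf (fun a => S.node (x a) (z a)) :=
  PTf.comp (g := fun x : W × W => S.node x.1 x.2) S.pnode (PTf.pair hx hz)
theorem PRF_b (S : Sys) {x z : γ → W} (hx : PTf x) (hz : PTf z) : PTf (fun a => S.b (x a) (z a)) :=
  PTf.comp (g := fun x : W × W => S.b x.1 x.2) S.pb (PTf.pair hx hz)
theorem PRF_χ (S : Sys) {x z : γ → W} (hx : PTf x) (hz : PTf z) : PTf (fun a => S.χ (x a) (z a)) :=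
  PTf.comp (g := fun x : W × W => S.χ x.1 x.2) S.pχ (PTf.pair hx hz)
theorem PRF_g (S : Sys) {x y z : γ → W} (hx : PTf x) (hy : PTf y) (hz : PTf z) :
    PTf (fun a => S.g (x a) (y a) (z a)) := by
  unfold Sys.g
  exact PRF_b S (PRF_cut S hx hz) hy

theorem PRF_K (hNPC : ST_NPC) (S : Sys) {x : γ → W} (hx : PTf x) : NPf (fun a => x a ∈ S.K) := by
  obtain ⟨-, h2, -⟩ := hNPC
  refine h2 (fun x => x ∈ S.K) x ⟨S.V, S.m, S.pV, S.pm, fun a w h => (S.hV a w h).2, ?_⟩ hx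
  intro a ha
  obtain ⟨z, hz⟩ := S.hK a ha
  exact ⟨z, (S.hV a z hz).1.le, hz⟩

theorem PRF_bool (hNPC : ST_NPC) {p : γ → Bool} (hp : PTf p) (b : Bool) : NPf (fun a => p a = b) := by
  obtain ⟨h1, -⟩ := hNPC
  refine PRF_iff (L := fun a => decide (p a = b) = true) (fun a => by simp) (h1 _ ?_)
  fun_prop

theorem PRF_and (hNPC : ST_NPC) {L L' : γ → Prop} (h : NPf L) (h' : NPf L') :
    NPf (fun a => L a ∧ L' a) := hNPC.2.2.1 L L' h h'

theorem PRF_or (hNPC : ST_NPC) {L L' : γ → Prop} (h : NPf L) (h' : NPf L') :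
    NPf (fun a => L a ∨ L' a) := hNPC.2.2.2.1 L L' h h'

theorem PRF_CA (hNPC : ST_NPC) (S : Sys) {ρ ψ : γ → W} (hρ : PTf ρ) (hψ : PTf ψ) :
    NPf (fun a => S.CA (ρ a) (ψ a)) := by
  have hm := PRF_m S hρ
  exact PRF_and hNPC (PRF_K hNPC S hψ) (PRF_and hNPC
    (PRF_bool hNPC (PRF_g S hρ hψ (PRF_one hm)) false)
    (PRF_K hNPC S (PRF_χ S (PRF_cut S hρ (PRF_one hm)) hψ)))

theorem PRF_CB (hNPC : ST_NPC) (S : Sys) {ρ ψ : γ → W} (hρ : PTf ρ) (hψ : PTf ψ) :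
    NPf (fun a => S.CB (ρ a) (ψ a)) := by
  have hm := PRF_m S hρ
  exact PRF_and hNPC (PRF_bool hNPC (PRF_V S hρ (PRF_zer hm)) false) (PRF_and hNPC
    (PRF_bool hNPC (PRF_g S hρ hψ (PRF_zer hm)) true) (PRF_and hNPC
    (PRF_K hNPC S (PRF_χ S (PRF_cut S hρ (PRF_zer hm)) hψ)) (PRF_and hNPC
    (PRF_bool hNPC (PRF_g S hρ hψ (PRF_one hm)) true)
    (PRF_K hNPC S (PRF_χ S (PRF_cut S hρ (PRF_one hm)) hψ)))))

theorem PRF_CC (hPP : ST_PP) (hNPC : ST_NPC) (S : Sys) {ρ ψ ψ' : γ → W} (hρ : PTf ρ) (hψ : PTf ψ)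
    (hψ' : PTf ψ') : NPf (fun a => S.CC (ρ a) (ψ a) (ψ' a)) := by
  have hm := PRF_m S hρ
  have key : NPf (fun a => ∃ u : W, u.length ≤ S.m (ρ a) ∧ ∃ c' : W, c'.length ≤ S.m (ρ a) ∧
      (u.length < S.m (ρ a) ∧ c'.length = S.m (ρ a) ∧
      leW c' (u ++ true :: zer (S.m (ρ a) - u.length - 1)) = true ∧ (ψ a) ∈ S.K ∧
      S.g (ρ a) (ψ a) (u ++ false :: one (S.m (ρ a) - u.length - 1)) = false ∧
      S.χ (S.cut (ρ a) (u ++ false :: one (S.m (ρ a) - u.length - 1))) (ψ a) ∈ S.K ∧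
      S.V (ρ a) (u ++ true :: zer (S.m (ρ a) - u.length - 1)) = false ∧
      S.g (ρ a) (ψ' a) c' = true ∧ S.χ (S.cut (ρ a) c') (ψ' a) ∈ S.K ∧
      S.g (ρ a) (ψ' a) (one (S.m (ρ a))) = true ∧
      S.χ (S.cut (ρ a) (one (S.m (ρ a)))) (ψ' a) ∈ S.K)) := by
    refine hNPC.2.2.2.2 _ _ ?_ hm
    refine hNPC.2.2.2.2 (fun (x : γ × W) (c' : W) => (x.2.length < S.m (ρ x.1) ∧
      c'.length = S.m (ρ x.1) ∧
      leW c' (x.2 ++ true :: zer (S.m (ρ x.1) - x.2.length - 1)) = true ∧ (ψ x.1) ∈ S.K ∧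
      S.g (ρ x.1) (ψ x.1) (x.2 ++ false :: one (S.m (ρ x.1) - x.2.length - 1)) = false ∧
      S.χ (S.cut (ρ x.1) (x.2 ++ false :: one (S.m (ρ x.1) - x.2.length - 1))) (ψ x.1) ∈ S.K ∧
      S.V (ρ x.1) (x.2 ++ true :: zer (S.m (ρ x.1) - x.2.length - 1)) = false ∧
      S.g (ρ x.1) (ψ' x.1) c' = true ∧ S.χ (S.cut (ρ x.1) c') (ψ' x.1) ∈ S.K ∧
      S.g (ρ x.1) (ψ' x.1) (one (S.m (ρ x.1))) = true ∧
      S.χ (S.cut (ρ x.1) (one (S.m (ρ x.1)))) (ψ' x.1) ∈ S.K)) _ ?_ ?_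
    · have e1 : PTf (fun x : (γ × W) × W => ρ x.1.1) := PTf.comp hρ (by fun_prop)
      have e2 : PTf (fun x : (γ × W) × W => ψ x.1.1) := PTf.comp hψ (by fun_prop)
      have e3 : PTf (fun x : (γ × W) × W => ψ' x.1.1) := PTf.comp hψ' (by fun_prop)
      have e4 : PTf (fun x : (γ × W) × W => S.m (ρ x.1.1)) := PRF_m S e1
      have e5 : PTf (fun x : (γ × W) × W => x.1.2) := by fun_prop
      have e6 : PTf (fun x : (γ × W) × W => x.2) := by fun_prop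
      have e7 : PTf (fun x : (γ × W) × W =>
          x.1.2 ++ true :: zer (S.m (ρ x.1.1) - x.1.2.length - 1)) := by fun_prop
      have e8 : PTf (fun x : (γ × W) × W =>
          x.1.2 ++ false :: one (S.m (ρ x.1.1) - x.1.2.length - 1)) := by fun_prop
      have d1 : NPf (fun x : (γ × W) × W => x.1.2.length < S.m (ρ x.1.1)) :=
        PRF_iff (fun a => decide_eq_true_iff) (hNPC.1 (fun x : (γ × W) × W =>
          decide (x.1.2.length < S.m (ρ x.1.1))) (by fun_prop))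
      have d2 : NPf (fun x : (γ × W) × W => x.2.length = S.m (ρ x.1.1)) :=
        PRF_iff (fun a => decide_eq_true_iff) (hNPC.1 (fun x : (γ × W) × W =>
          decide (x.2.length = S.m (ρ x.1.1))) (by fun_prop))
      exact PRF_and hNPC d1 (PRF_and hNPC d2 (PRF_and hNPC
        (PRF_bool hNPC (PTf.comp (g := fun x : W × W => leW x.1 x.2) hPP.1 (PTf.pair e6 e7)) true)
        (PRF_and hNPC (PRF_K hNPC S e2) (PRF_and hNPC (PRF_bool hNPC (PRF_g S e1 e2 e8) false)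
        (PRF_and hNPC (PRF_K hNPC S (PRF_χ S (PRF_cut S e1 e8) e2))
        (PRF_and hNPC (PRF_bool hNPC (PRF_V S e1 e7) false)
        (PRF_and hNPC (PRF_bool hNPC (PRF_g S e1 e3 e6) true)
        (PRF_and hNPC (PRF_K hNPC S (PRF_χ S (PRF_cut S e1 e6) e3))
        (PRF_and hNPC (PRF_bool hNPC (PRF_g S e1 e3 (PRF_one e4)) true)
        (PRF_K hNPC S (PRF_χ S (PRF_cut S e1 (PRF_one e4)) e3)))))))))))
    · exact PTf.comp (g := fun x : γ => S.m (ρ x)) hm (by fun_prop)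
  refine PRF_iff (fun a => ?_) key
  unfold Sys.CC
  constructor
  · rintro ⟨u, _, c', _, h⟩; exact ⟨u, c', h⟩
  · rintro ⟨u, c', h⟩; exact ⟨u, h.1.le, c', h.2.1.le, h⟩

end

theorem st_PRF (hPP : ST_PP) (hNPC : ST_NPC) : ST_PRF := by
  intro S
  have key : NPf (fun x : ℕ × W => ∃ X : W, X.length ≤ x.1 ∧ ∃ u : W, u.length ≤ S.m X ∧
      (X.length = x.1 ∧ u.length < S.m X ∧
      ((S.CA x.2 (S.node X (u ++ [true])) ∨ S.CB x.2 (S.node X (u ++ [true])) ∨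
        S.CC x.2 (S.node X (u ++ [true])) (S.node X (u ++ [false]))) ∨
      (S.CA x.2 (S.node X (u ++ [false])) ∨ S.CB x.2 (S.node X (u ++ [false])) ∨
        S.CC x.2 (S.node X (u ++ [false])) (S.node X (u ++ [true])))))) := by
    refine hNPC.2.2.2.2 _ _ ?_ (by fun_prop)
    refine hNPC.2.2.2.2 (fun (y : (ℕ × W) × W) (u : W) => (y.2.length = y.1.1 ∧ u.length < S.m y.2 ∧
      ((S.CA y.1.2 (S.node y.2 (u ++ [true])) ∨ S.CB y.1.2 (S.node y.2 (u ++ [true])) ∨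
        S.CC y.1.2 (S.node y.2 (u ++ [true])) (S.node y.2 (u ++ [false]))) ∨
      (S.CA y.1.2 (S.node y.2 (u ++ [false])) ∨ S.CB y.1.2 (S.node y.2 (u ++ [false])) ∨
        S.CC y.1.2 (S.node y.2 (u ++ [false])) (S.node y.2 (u ++ [true])))))) _ ?_
      (PRF_m S (by fun_prop))
    have e1 : PTf (fun x : ((ℕ × W) × W) × W => x.1.1.2) := by fun_prop
    have e2 : PTf (fun x : ((ℕ × W) × W) × W => x.1.2) := by fun_prop
    have e3 : PTf (fun x : ((ℕ × W) × W) × W => S.m x.1.2) := PRF_m S e2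
    have e4 : PTf (fun x : ((ℕ × W) × W) × W => S.node x.1.2 (x.2 ++ [true])) :=
      PRF_node S e2 (by fun_prop)
    have e5 : PTf (fun x : ((ℕ × W) × W) × W => S.node x.1.2 (x.2 ++ [false])) :=
      PRF_node S e2 (by fun_prop)
    have d1 : NPf (fun x : ((ℕ × W) × W) × W => x.1.2.length = x.1.1.1) :=
      PRF_iff (fun a => decide_eq_true_iff) (hNPC.1 (fun x : ((ℕ × W) × W) × W =>
        decide (x.1.2.length = x.1.1.1)) (by fun_prop))
    have d2 : NPf (fun x : ((ℕ × W) × W) × W => x.2.length < S.m x.1.2) :=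
      PRF_iff (fun a => decide_eq_true_iff) (hNPC.1 (fun x : ((ℕ × W) × W) × W =>
        decide (x.2.length < S.m x.1.2)) (by fun_prop))
    exact PRF_and hNPC d1 (PRF_and hNPC d2 (PRF_or hNPC
      (PRF_or hNPC (PRF_CA hNPC S e1 e4) (PRF_or hNPC (PRF_CB hNPC S e1 e4)
        (PRF_CC hPP hNPC S e1 e4 e5)))
      (PRF_or hNPC (PRF_CA hNPC S e1 e5) (PRF_or hNPC (PRF_CB hNPC S e1 e5)
        (PRF_CC hPP hNPC S e1 e5 e4)))))
  refine PRF_iff (fun x => ?_) key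
  unfold Sys.PROOF
  constructor
  · rintro ⟨X, _, u, _, h1, h2, h | h⟩
    · exact ⟨X, u, h1, h2, true, h⟩
    · exact ⟨X, u, h1, h2, false, h⟩
  · rintro ⟨X, u, h1, h2, s, h⟩
    refine ⟨X, h1.le, u, h2.le, h1, h2, ?_⟩
    cases s
    · exact Or.inr h
    · exact Or.inl h

end Pool.Agent.Helper61.TQ
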