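import Pool.Agent.Helper61.TQ.Core

set_option autoImplicit false

namespace Pool.Agent.Helper61.TQ

theorem SND_full (hL : ST_LEW) (S : Sys) (ρ : W) (h : S.cut ρ (one (S.m ρ)) ∉ S.K) : ρ ∉ S.K := by
  obtain ⟨_, _, h3, _, h5, _⟩ := hL
  intro hρ
  apply h
  obtain ⟨z, hz⟩ := S.hK ρ hρ
  rw [S.hcut ρ _ (by simp [one])]
  refine ⟨z, ?_, hz⟩
  have e1 := h3 z
  rw [(S.hV ρ z hz).1] at e1
  have e2 := h5 (S.m ρ)
  omega

theorem SND_zero (hL : ST_LEW) (S : Sys) (ρ : W) (h : S.V ρ (zer (S.m ρ)) = false) :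
    S.cut ρ (zer (S.m ρ)) ∉ S.K := by
  obtain ⟨_, h2, _, h4, _⟩ := hL
  intro hc
  rw [S.hcut ρ _ (by simp [zer])] at hc
  obtain ⟨z, hz, hv⟩ := hc
  rw [h4] at hz
  have e : z = zer (S.m ρ) := h2 _ _ (by rw [(S.hV ρ z hv).1]; simp [zer]) (by rw [h4]; omega)
  rw [e, h] at hv
  exact Bool.false_ne_true hv

theorem st_SND (hL : ST_LEW) : ST_SND := by
  intro S n ρ hP
  have hfull := SND_full hL S ρ
  have hzero := SND_zero hL S ρ
  obtain ⟨h1, h2, _, _, _, h6, _, _⟩ := hL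
  unfold Sys.PROOF at hP
  obtain ⟨X, u, _, _, s, h | h | h⟩ := hP
  · obtain ⟨a1, a2, a3⟩ := h
    apply hfull
    intro hc
    have := (S.hχ (S.cut ρ (one (S.m ρ))) (S.node X (u ++ [s]))).1 (iff_of_true hc a1)
    have a2' : S.b (S.cut ρ (one (S.m ρ))) (S.node X (u ++ [s])) = false := a2
    rw [a2'] at this
    exact Bool.false_ne_true (this.2 a3)
  · obtain ⟨b1, b2, b3, b4, b5⟩ := h
    have hz := hzero b1
    have hψ : S.node X (u ++ [s]) ∉ S.K := by
      have := (S.hχ (S.cut ρ (zer (S.m ρ))) (S.node X (u ++ [s]))).2 (iff_of_true b2 b3)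
      exact fun hh => hz (this.2 hh)
    apply hfull
    have := (S.hχ (S.cut ρ (one (S.m ρ))) (S.node X (u ++ [s]))).2 (iff_of_true b4 b5)
    exact fun hh => hψ (this.1 hh)
  · obtain ⟨v, c', c1, c2, c3, c4, c5, c6, c7, c8, c9, c10, c11⟩ := h
    set k := S.m ρ - v.length - 1 with hk
    have hl1 : (v ++ false :: one k).length = S.m ρ := by simp [one]; omega
    have hl2 : (v ++ true :: zer k).length = S.m ρ := by simp [zer]; omega
    have g1 : S.cut ρ (v ++ false :: one k) ∉ S.K := by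
      intro hc
      have := (S.hχ (S.cut ρ (v ++ false :: one k)) (S.node X (u ++ [s]))).1 (iff_of_true hc c4)
      have c5' : S.b (S.cut ρ (v ++ false :: one k)) (S.node X (u ++ [s])) = false := c5
      rw [c5'] at this
      exact Bool.false_ne_true (this.2 c6)
    have g2 : S.cut ρ c' ∉ S.K := by
      intro hc
      rw [S.hcut ρ _ c2] at hc
      obtain ⟨z, hz, hv⟩ := hc
      have hzl := (S.hV ρ z hv).1
      have e1 := (h1 c' (v ++ true :: zer k) (by rw [c2, hl2])).1 c3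
      rw [h6] at e1
      by_cases hzz : val z ≤ val (v ++ false :: one k)
      · exact g1 ((S.hcut ρ _ hl1).2 ⟨z, hzz, hv⟩)
      · have e2 : val z = val (v ++ true :: zer k) := by rw [h6]; omega
        have e3 := h2 _ _ (by rw [hzl, hl2]) e2
        rw [e3, c7] at hv
        exact Bool.false_ne_true hv
    have g3 : S.node X (u ++ [!s]) ∉ S.K := by
      have := (S.hχ (S.cut ρ c') (S.node X (u ++ [!s]))).2 (iff_of_true c8 c9)
      exact fun hh => g2 (this.2 hh)
    apply hfull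
    have := (S.hχ (S.cut ρ (one (S.m ρ))) (S.node X (u ++ [!s]))).2 (iff_of_true c10 c11)
    exact fun hh => g3 (this.1 hh)

end Pool.Agent.Helper61.TQ
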